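import Mathlib
import Pool.Agent.Run7.h16.MQ.StmA
import Pool.Agent.Run7.h16.UF.Malle

/-!
# Malle's conjecture for `C₂ ≀ X`, `X` any extension by wreath products `T ≀ S_n`, `n ≥ 7`

A finite group `X` acts on itself by multiplication, and `C₂ ≀ X` acts on `X × {0, 1}`.

`UnivF` (file `Pool/Agent/Run7/h16/UF/Def.lean`) is the smallest class of groups which

* contains the class `Univ` of the starting result `MP_dadaab_nt` UniversalKernels (for example `S_m`,
  `m ≥ 3`, `m ≠ 6`, and `G ≀ S_n` for `G ≠ 1` finite with trivial centre such that `Inn G` has a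
  complement in `Aut G` and `n ≥ ((3 |G| + 2)!)^3`),
* contains `T ≀ S_n` for ALL `n ≥ 7` if it contains the nontrivial group `T`,
* is closed under finite direct products, direct factors, characteristic extensions and
  isomorphisms.

Let `T_i`, `i ∈ I`, be finitely many nontrivial groups of this class and `n_i ≥ 7`.

1. Let `X` be ANY group with a normal subgroup `N` which is isomorphic to the direct product of the
   groups `T_i ≀ S_{n_i}`, such that `|X / N| ≤ ∏ |T_i|^(n_i - 2) (n_i - 4)!` (the extension
   `1 → N → X → X / N → 1` need not split, and `X / N` may act in any way). Then for every number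
   field `K` the following are equivalent:
   * `X / N` is a Galois group over `K`;
   * there is an extension of `K` with the Galois group `C₂ ≀ X`;
   * the number of these extensions (up to isomorphism) with discriminant of norm at most `B` is
     asymptotic to `c B` with a constant `c > 0`, as predicted by Malle.
2. In particular Malle's conjecture holds for `C₂ ≀ X` over all number fields if `X` is the direct
   product of the groups `T_i ≀ S_{n_i}` itself.

In the results UniversalKernels and WreathProductKernels on this page the groups `T ≀ S_n` have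
`n ≥ 2 (|T| + 2)` (for `T` in `Univ`) or `n ≥ ((3 |T| + 2)!)^3`. The new part is `n ≥ 7`, for example
`N = S_7^k ≀ S_7` for all `k ≥ 1`: the automorphisms of `S_n`, `n ≥ 7`, are inner, the base group of `T ≀ S_n`,
`n ≥ 5`, is characteristic (files `Pool/Agent/Run7/h16/UP/Aut.lean`, `Base.lean`), and `T ≀ S_n` has a
subgroup with trivial core which is small enough already for `n ≥ 7`. The counting of the quadratic
extensions of the fields with Galois group `X` (a theorem of Klüners, if `X` is a Galois group) is that
of the starting files `TH444/ML`.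
-/

set_option autoImplicit false

open Pool.Agent.H391R2 (Wr)
open Run7.h16.UF (UnivF)
open Run7.h16.MQ.A

namespace Pool.Agent.Results.MP_a3214d_nt.PermutationalWreathKernels

/-- The trivial group is a Galois group. -/
theorem galois_triv (K : Type) [Field K] (Y : Type) [Group Y] [Subsingleton Y] :
    IsGaloisGroupOver K Y := by
  have h : Subsingleton (K ≃ₐ[K] K) := ⟨Pool.Agent.N600.UK.triv_aut⟩
  refine ⟨K, inferInstance, Algebra.id K, inferInstance, ⟨?_⟩⟩
  exact
    { toFun := fun _ => 1
      invFun := fun _ => 1
      left_inv := fun _ => Subsingleton.elim _ _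
      right_inv := fun _ => Subsingleton.elim _ _
      map_mul' := fun _ _ => Subsingleton.elim _ _ }

theorem result (I : Type) [Fintype I] [Nonempty I] (T : I → Type) [∀ i, Group (T i)]
    [∀ i, Nontrivial (T i)] (hT : ∀ i, UnivF (T i)) (n : I → ℕ) (hn : ∀ i, 7 ≤ n i) :
    (∀ (X : Type) [Group X] (N : Subgroup X) [N.Normal],
      Nonempty (N ≃* ∀ i, Wr (T i) (n i)) → Finite (X ⧸ N) →
      Nat.card (X ⧸ N) ≤ ∏ i, (Nat.card (T i) ^ (n i - 2) * (n i - 4).factorial) →
      GroupExists X ∧ Criterion X (X ⧸ N)) ∧
    MalleAll (∀ i, Wr (T i) (n i)) := by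
  have key : ∀ (X : Type) [Group X] (N : Subgroup X) [N.Normal],
      Nonempty (N ≃* ∀ i, Wr (T i) (n i)) → Finite (X ⧸ N) →
      Nat.card (X ⧸ N) ≤ ∏ i, (Nat.card (T i) ^ (n i - 2) * (n i - 4).factorial) →
      GroupExists X ∧ Criterion X (X ⧸ N) := by
    intro X _ N _ hN hfin hq
    obtain ⟨hd, hr⟩ := Run7.h16.UF.prod_data7 T hT n hn X N hN hfin hq
    have hf := hd.finite
    exact ⟨exists_group X, criterion_of hd hr⟩
  refine ⟨key, ?_⟩
  have hs : Subsingleton ((∀ i, Wr (T i) (n i)) ⧸ (⊤ : Subgroup (∀ i, Wr (T i) (n i)))) :=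
    QuotientGroup.subsingleton_quotient_top
  have hall : ∀ (K : Type) [Field K] [NumberField K], MalleOrderTwo K (∀ i, Wr (T i) (n i)) := by
    intro K _ _
    have hfT : ∀ i, Finite (T i) := fun i => (hT i).main.1
    have h1 := (key (∀ i, Wr (T i) (n i)) ⊤ ⟨Subgroup.topEquiv⟩ inferInstance (by
      have h2 : Nat.card ((∀ i, Wr (T i) (n i)) ⧸ (⊤ : Subgroup (∀ i, Wr (T i) (n i)))) ≤ 1 :=
        Finite.card_le_one_iff_subsingleton.2 hs
      refine h2.trans (Nat.succ_le_of_lt (Finset.prod_pos fun i _ => ?_))
      exact Nat.mul_pos (pow_pos Nat.card_pos _) (Nat.factorial_pos _))).2 K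
    exact (h1.out 0 2).1 (galois_triv K _)
  exact malle_all hall

end Pool.Agent.Results.MP_a3214d_nt.PermutationalWreathKernels
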